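import Pool.Agent.helper92.VT.Spec

/-!
# Row vt:NML: products of exponential sums
-/

set_option autoImplicit false

universe u

namespace Pool.Agent.helper92.VT

open MvPolynomial Pool.Agent.helper92.VC

theorem NML_sub (hSUB : SUB_stmt.{u}) {σ τ : Type} {k : Type u} [Field k] (f : σ → τ) (L : ℕ)
    (Φ : MvPolynomial σ k) (h : ComputedIn Φ L) : CST_E ∅ {rename f Φ} L := by
  have h1 := hSUB σ τ k (fun i => X (f i)) L Φ h
  have h2 : rename f Φ = aeval (fun i => (X (f i) : MvPolynomial τ k)) Φ := by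
    have h3 := aeval_rename (R := k) f (X : τ → MvPolynomial τ k) Φ
    rw [aeval_X_left_apply] at h3
    exact h3
  rw [h2]
  intro l hl _
  exact h1 l hl (by rintro _ ⟨i, rfl⟩; exact Or.inl ⟨f i, rfl⟩)

theorem NML (hSUB : SUB_stmt.{u}) : NML_stmt.{u} := by
  intro k _ n d m L D m' L' D' φ φ' h h'
  obtain ⟨Φ, h1, h2, h3⟩ := h
  obtain ⟨Φ', h1', h2', h3'⟩ := h'
  refine ⟨rename (Sum.map id (Fin.castAdd m')) Φ * rename (Sum.map id (Fin.natAdd m)) Φ',
    ?_, ?_, ?_⟩
  · have h4 := CST_E_mul (NML_sub hSUB (Sum.map id (Fin.castAdd m')) L Φ h1)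
      (NML_sub hSUB (Sum.map id (Fin.natAdd m)) L' Φ' h1')
    obtain ⟨l, h5, h6, h7⟩ := h4 [] SLP.nil (fun s hs => absurd hs (Set.notMem_empty s))
    rw [List.append_nil] at h5 h7
    exact ⟨l, h5, h6, h7 _ rfl⟩
  · refine (totalDegree_mul _ _).trans (Nat.add_le_add ?_ ?_)
    · exact (totalDegree_rename_le _ _).trans h2
    · exact (totalDegree_rename_le _ _).trans h2'
  · intro e he
    change φ e * φ' e = _
    rw [h3 e he, h3' e he, Finset.sum_mul_sum, ← Equiv.sum_comp (Fin.appendEquiv m m'),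
      Fintype.sum_prod_type]
    refine Finset.sum_congr rfl fun z _ => Finset.sum_congr rfl fun z' _ => ?_
    rw [map_mul, eval_rename, eval_rename]
    have e1 : (Sum.elim (oh k n d e) fun i => ((((Fin.appendEquiv m m' : (Fin m → Fin 2) × (Fin m' → Fin 2) ≃ _) (z, z') i : Fin 2) : ℕ) : k)) ∘
        Sum.map id (Fin.castAdd m') = Sum.elim (oh k n d e) fun i => ((z i : ℕ) : k) := by
      funext x
      rcases x with x | x
      · rfl
      · change (((Fin.append z z' (Fin.castAdd m' x) : Fin 2) : ℕ) : k) = ((z x : ℕ) : k)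
        rw [Fin.append_left]
    have e2 : (Sum.elim (oh k n d e) fun i => ((((Fin.appendEquiv m m' : (Fin m → Fin 2) × (Fin m' → Fin 2) ≃ _) (z, z') i : Fin 2) : ℕ) : k)) ∘
        Sum.map id (Fin.natAdd m) = Sum.elim (oh k n d e) fun i => ((z' i : ℕ) : k) := by
      funext x
      rcases x with x | x
      · rfl
      · change (((Fin.append z z' (Fin.natAdd m x) : Fin 2) : ℕ) : k) = ((z' x : ℕ) : k)
        rw [Fin.append_right]
    rw [e1, e2]

end Pool.Agent.helper92.VT
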